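import Mathlib

set_option autoImplicit false

namespace Pool.Agent.H2.BEFAEA

variable {ι : Type} [Fintype ι]

lemma core_half (a b : ι → ℝ) (h1 : ∀ i, |a i| + |b i| ≤ 1)
    (hx : ∑ i, (a i ^ 2 - b i ^ 2) = 0) (hy : ∑ i, a i * b i = 0) (A : Finset ι)
    (hA : ∀ i, i ∈ A ↔ |b i| ≤ |a i|) (hc : Fintype.card ι + 1 ≤ 2 * A.card) :
    3 / 4 ≤ ∑ i, (1 - a i ^ 2 - b i ^ 2) := by
  classical
  by_contra hcon
  push Not at hcon
  obtain ⟨T, hT⟩ : ∃ T, T = ∑ i, (1 - a i ^ 2 - b i ^ 2) := ⟨_, rfl⟩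
  rw [← hT] at hcon
  have hsq : ∀ i, a i ^ 2 = |a i| ^ 2 ∧ b i ^ 2 = |b i| ^ 2 := fun i => ⟨(sq_abs _).symm, (sq_abs _).symm⟩
  have hD : ∀ i, 2 * |a i * b i| ≤ 1 - a i ^ 2 - b i ^ 2 := by
    intro i
    rw [abs_mul, (hsq i).1, (hsq i).2]
    nlinarith [h1 i, abs_nonneg (a i), abs_nonneg (b i)]
  have hD0 : ∀ i, 0 ≤ 1 - a i ^ 2 - b i ^ 2 := fun i => (by positivity : (0:ℝ) ≤ 2 * |a i * b i|).trans (hD i)
  -- (1)
  have e1 : 1 - 2 * ∑ i ∈ A, b i ^ 2 ≤ T := by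
    have s1 : ∑ i ∈ A, (a i ^ 2 - b i ^ 2) + ∑ i ∈ Aᶜ, (a i ^ 2 - b i ^ 2) = 0 := by
      rw [Finset.sum_add_sum_compl, hx]
    have s2 : ∑ i ∈ Aᶜ, (-1 : ℝ) ≤ ∑ i ∈ Aᶜ, (a i ^ 2 - b i ^ 2) := by
      apply Finset.sum_le_sum
      intro i _
      have := hD0 i
      nlinarith [sq_nonneg (a i)]
    rw [Finset.sum_const, nsmul_eq_mul] at s2
    have s3 : ∑ i ∈ A, (1 - a i ^ 2 - b i ^ 2) ≤ T := by
      rw [hT]
      exact Finset.sum_le_sum_of_subset_of_nonneg (Finset.subset_univ _) fun i _ _ => hD0 i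
    have s4 : ∑ i ∈ A, (1 - a i ^ 2 - b i ^ 2) =
        A.card - ∑ i ∈ A, (a i ^ 2 - b i ^ 2) - 2 * ∑ i ∈ A, b i ^ 2 := by
      rw [Finset.mul_sum, ← nsmul_one, ← Finset.sum_const, ← Finset.sum_sub_distrib,
        ← Finset.sum_sub_distrib]
      exact Finset.sum_congr rfl fun i _ => by ring
    have s5 : A.card + (Aᶜ).card = Fintype.card ι := Finset.card_add_card_compl A
    have s6 : (Aᶜ).card + 1 ≤ A.card := by omega
    have s7 : ((Aᶜ).card : ℝ) + 1 ≤ A.card := by exact_mod_cast s6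
    linarith
  -- (2), (3)
  have e2 : ∀ (σ : ℝ) (Q : Finset ι), σ ^ 2 = 1 → (∀ i ∈ Q, |a i * b i| = σ * (a i * b i)) →
      (∀ i ∈ Qᶜ, |a i * b i| = -(σ * (a i * b i))) →
      ∑ i ∈ A ∩ Q, 4 * (|b i| * (1 - |b i|)) ≤ T := by
    intro σ Q _ hQ hQc
    have s1 : ∑ i ∈ Q, |a i * b i| = ∑ i ∈ Qᶜ, |a i * b i| := by
      rw [Finset.sum_congr rfl hQ, Finset.sum_congr rfl hQc, Finset.sum_neg_distrib,
        ← Finset.mul_sum, ← Finset.mul_sum]
      have := Finset.sum_add_sum_compl Q (fun i => a i * b i)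
      rw [hy] at this
      have h' : σ * (∑ i ∈ Q, a i * b i) + σ * (∑ i ∈ Qᶜ, a i * b i) = 0 := by
        rw [← mul_add, this, mul_zero]
      linarith
    have s2 : ∑ i ∈ A ∩ Q, 4 * (|b i| * (1 - |b i|)) ≤
        ∑ i ∈ A ∩ Q, (1 - a i ^ 2 - b i ^ 2) + ∑ i ∈ A ∩ Q, 2 * |a i * b i| := by
      rw [← Finset.sum_add_distrib]
      apply Finset.sum_le_sum
      intro i hi
      have hiA := (hA i).1 (Finset.mem_inter.1 hi).1
      rw [abs_mul, (hsq i).1, (hsq i).2]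
      nlinarith [h1 i, abs_nonneg (a i), abs_nonneg (b i)]
    have s3 : ∑ i ∈ A ∩ Q, 2 * |a i * b i| ≤ ∑ i ∈ Q, 2 * |a i * b i| :=
      Finset.sum_le_sum_of_subset_of_nonneg Finset.inter_subset_right fun i _ _ => by positivity
    have s4 : ∑ i ∈ Q, 2 * |a i * b i| ≤ ∑ i ∈ Qᶜ, (1 - a i ^ 2 - b i ^ 2) := by
      rw [← Finset.mul_sum, s1, Finset.mul_sum]
      exact Finset.sum_le_sum fun i _ => hD i
    have s5 : ∑ i ∈ A ∩ Q, (1 - a i ^ 2 - b i ^ 2) ≤ ∑ i ∈ Q, (1 - a i ^ 2 - b i ^ 2) :=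
      Finset.sum_le_sum_of_subset_of_nonneg Finset.inter_subset_right fun i _ _ => hD0 i
    have s6 := Finset.sum_add_sum_compl Q (fun i => 1 - a i ^ 2 - b i ^ 2)
    rw [← hT] at s6
    linarith
  have e3 : ∀ Q : Finset ι, ∑ i ∈ A ∩ Q, 4 * (|b i| * (1 - |b i|)) ≤ T →
      12 * ∑ i ∈ A ∩ Q, b i ^ 2 ≤ T := by
    intro Q hQ
    refine le_trans ?_ hQ
    rw [Finset.mul_sum]
    apply Finset.sum_le_sum
    intro i hi
    have hiA := (hA i).1 (Finset.mem_inter.1 hi).1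
    have hb2 : |b i| ≤ 1 / 2 := by linarith [h1 i]
    have hnn : ∀ j ∈ A ∩ Q, 0 ≤ 4 * (|b j| * (1 - |b j|)) := by
      intro j hj
      have hjA := (hA j).1 (Finset.mem_inter.1 hj).1
      have : |b j| ≤ 1 / 2 := by linarith [h1 j]
      have := abs_nonneg (b j)
      have : 0 ≤ 1 - |b j| := by linarith
      positivity
    have h4 : 4 * (|b i| * (1 - |b i|)) ≤ T := (Finset.single_le_sum hnn hi).trans hQ
    have hb4 : |b i| < 1 / 4 := by nlinarith [abs_nonneg (b i)]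
    rw [(hsq i).2]
    nlinarith [abs_nonneg (b i)]
  obtain ⟨Q, hQ⟩ : ∃ Q : Finset ι, ∀ i, i ∈ Q ↔ 0 ≤ a i * b i :=
    ⟨Finset.univ.filter fun i => 0 ≤ a i * b i, by simp⟩
  have f1 := e3 Q (e2 1 Q (by norm_num) (fun i hi => by rw [abs_of_nonneg ((hQ i).1 hi), one_mul])
    (fun i hi => by
      rw [Finset.mem_compl, hQ] at hi
      rw [abs_of_neg (not_le.1 hi), one_mul]))
  have f2 := e3 Qᶜ (e2 (-1) Qᶜ (by norm_num) (fun i hi => by
      rw [Finset.mem_compl, hQ] at hi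
      rw [abs_of_neg (not_le.1 hi)]
      ring) (fun i hi => by
      rw [compl_compl, hQ] at hi
      rw [abs_of_nonneg hi]
      ring))
  have f3 : ∑ i ∈ A, b i ^ 2 = ∑ i ∈ A ∩ Q, b i ^ 2 + ∑ i ∈ A ∩ Qᶜ, b i ^ 2 := by
    rw [← Finset.sdiff_eq_inter_compl, Finset.sum_inter_add_sum_sdiff]
  rw [f3] at e1
  linarith

/-- the core inequality -/
lemma core (a b : ι → ℝ) (h1 : ∀ i, |a i| + |b i| ≤ 1) (hodd : Odd (Fintype.card ι)) (S : ℝ)
    (ha : ∑ i, a i ^ 2 = S) (hb : ∑ i, b i ^ 2 = S) (hy : ∑ i, a i * b i = 0) :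
    2 * S ≤ Fintype.card ι - 3 / 4 := by
  classical
  have hsum : ∑ i, (1 - a i ^ 2 - b i ^ 2) = Fintype.card ι - 2 * S := by
    rw [Finset.sum_sub_distrib, Finset.sum_sub_distrib, ha, hb, Finset.sum_const,
      Finset.card_univ, nsmul_eq_mul, mul_one]
    ring
  obtain ⟨m, hm⟩ := hodd
  by_cases hc : Fintype.card ι + 1 ≤ 2 * (Finset.univ.filter fun i => |b i| ≤ |a i|).card
  · have := core_half a b h1 (by rw [Finset.sum_sub_distrib, ha, hb, sub_self]) hy _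
      (by simp) hc
    linarith
  · have h2 := Finset.card_filter_add_card_filter_not (s := (Finset.univ : Finset ι))
      (fun i => |b i| ≤ |a i|)
    have h3 : (Finset.univ.filter fun i => ¬ |b i| ≤ |a i|).card ≤
        (Finset.univ.filter fun i => |a i| ≤ |b i|).card := by
      apply Finset.card_le_card
      intro i hi
      rw [Finset.mem_filter] at hi ⊢
      exact ⟨hi.1, (not_le.1 hi.2).le⟩
    rw [Finset.card_univ] at h2
    have := core_half b a (fun i => by rw [add_comm]; exact h1 i)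
      (by rw [Finset.sum_sub_distrib, ha, hb, sub_self])
      (by rw [← hy]; exact Finset.sum_congr rfl fun i _ => mul_comm _ _)
      (Finset.univ.filter fun i => |a i| ≤ |b i|) (by simp) (by omega)
    have e : ∑ i, (1 - b i ^ 2 - a i ^ 2) = ∑ i, (1 - a i ^ 2 - b i ^ 2) :=
      Finset.sum_congr rfl fun i _ => by ring
    linarith

end Pool.Agent.H2.BEFAEA
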